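import Pool.Agent.Helper35.HG.StA
import Pool.Agent.Helper62.HC.M_PI2

set_option autoImplicit false

/-!
# Module FOC of project HG: first order condition in the normal direction
-/

namespace Helper2.HG

open Helper35.HG Helper35.HC Helper35.HSF Helper35.MS Helper35.PI Helper35.PI2 Helper32.CL
open scoped BigOperators Topology
open Filter

theorem ip0_lc2 {n : ℕ} (a a' : ℝ) (K b : Fin n → Fin n → ℝ) :
    ip0 (lc a a' K b) (lc a a' K b) = a ^ 2 * ip0 K K + 2 * (a * a') * ip0 K b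
      + a' ^ 2 * ip0 b b := by
  simp only [ip0, Pool.Agent.Helper62.HC.tl_lc, Finset.mul_sum, ← Finset.sum_add_distrib]
  exact Finset.sum_congr rfl fun i _ => Finset.sum_congr rfl fun j _ => by ring

/-- the coefficients `c, s` at `0` and `j + 1` -/
noncomputable def csA {m : ℕ} (j : Fin m) (c s : ℝ) : Fin (m + 1) → ℝ :=
  Fin.cons c (fun i => if i = j then s else 0)

theorem csA_sum {m : ℕ} (j : Fin m) (c s : ℝ) (f : Fin (m + 1) → ℝ) :
    ∑ α, csA j c s α * f α = c * f 0 + s * f j.succ := by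
  rw [Fin.sum_univ_succ]
  simp [csA]

theorem csA_sq {m : ℕ} (j : Fin m) (c s : ℝ) :
    ∑ α, csA j c s α ^ 2 = c ^ 2 + s ^ 2 := by
  rw [Fin.sum_univ_succ]
  simp [csA]

theorem lin_csA {n m : ℕ} (j : Fin m) (c s : ℝ) (H : Fin (m + 1) → Fin n → Fin n → ℝ) :
    lin (csA j c s) H = lc c s (H 0) (H j.succ) := by
  funext a b
  simp only [lin, lc]
  exact csA_sum j c s fun α => H α a b

theorem hFOC (hFRL : StFRL) : StFOC := by
  intro n N k p hp A r L x₀ hA l hl0 hl1 hR m H e hF hU P Q hPQ hEq j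
  have hn16 := hp.n16
  have hn0 : (0 : ℝ) < n := by
    have : 0 < n := by omega
    exact_mod_cast this
  have hr := hA.r0
  -- the inequality
  have hineq : ∀ c s : ℝ, c ^ 2 + s ^ 2 = 1 →
      ((c * bil (H 0) P Q + s * bil (H j.succ) P Q) ^ 2 + p.E / n *
        (c ^ 2 * ip0 (H 0) (H 0) + 2 * (c * s) * ip0 (H 0) (H j.succ)
          + s ^ 2 * ip0 (H j.succ) (H j.succ))) / r
      - l * p.J ((c * mt (H 0) + s * mt (H j.succ)) ^ 2 / r)
      ≤ (bil (H 0) P Q ^ 2 + p.E / n * ip0 (H 0) (H 0)) / r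
        - l * p.J (mt (H 0) ^ 2 / r) := by
    intro c s hcs
    obtain ⟨h1, h2, -, -, h5⟩ := hFRL n N (m + 1) (by omega) A H r L e x₀ hF hU (csA j c s)
    have hun := h5 (by rw [csA_sq]; exact hcs)
    have h := hR _ hun P Q hPQ
    rw [h1, lin_csA, h2, csA_sum j c s fun α => mt (H α), ip0_lc2,
      Pool.Agent.Helper62.HC.bil_lc] at h
    have h6 : ((n : ℝ) * (c * mt (H 0) + s * mt (H j.succ))) ^ 2 / (n ^ 2 * r)
        = (c * mt (H 0) + s * mt (H j.succ)) ^ 2 / r := by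
      field_simp
    rw [h6] at h
    linarith
  -- the function
  obtain ⟨φ, hφ⟩ : ∃ φ : ℝ → ℝ, φ = fun s =>
      ((Real.sqrt (1 - s ^ 2) * bil (H 0) P Q + s * bil (H j.succ) P Q) ^ 2 + p.E / n *
        (Real.sqrt (1 - s ^ 2) ^ 2 * ip0 (H 0) (H 0)
          + 2 * (Real.sqrt (1 - s ^ 2) * s) * ip0 (H 0) (H j.succ)
          + s ^ 2 * ip0 (H j.succ) (H j.succ))) / r
      - l * p.J ((Real.sqrt (1 - s ^ 2) * mt (H 0) + s * mt (H j.succ)) ^ 2 / r) := ⟨_, rfl⟩
  have hmax : IsLocalMax φ 0 := by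
    have hnh : ∀ᶠ s : ℝ in 𝓝 0, s ∈ Set.Ioo (-1 : ℝ) 1 :=
      isOpen_Ioo.mem_nhds ⟨by norm_num, by norm_num⟩
    refine hnh.mono fun s hs => ?_
    have h1 : 0 ≤ 1 - s ^ 2 := by nlinarith [hs.1, hs.2]
    have h2 := hineq (Real.sqrt (1 - s ^ 2)) s (by rw [Real.sq_sqrt h1]; ring)
    have h3 : φ 0 = (bil (H 0) P Q ^ 2 + p.E / n * ip0 (H 0) (H 0)) / r
        - l * p.J (mt (H 0) ^ 2 / r) := by
      rw [hφ]
      simp
    rw [h3, hφ]
    exact h2
  -- the derivative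
  have hc : HasDerivAt (fun s : ℝ => Real.sqrt (1 - s ^ 2)) 0 0 := by
    have h1 : HasDerivAt (fun s : ℝ => 1 - s ^ 2) (0 : ℝ) 0 := by
      have := ((hasDerivAt_id (0 : ℝ)).pow 2).const_sub 1
      simpa using this
    have h2 := h1.sqrt (by norm_num)
    simpa using h2
  have hs : HasDerivAt (fun s : ℝ => s) 1 0 := hasDerivAt_id 0
  have hlin : ∀ x y : ℝ, HasDerivAt (fun s : ℝ => Real.sqrt (1 - s ^ 2) * x + s * y) y 0 := by
    intro x y
    refine ((hc.mul_const x).add (hs.mul_const y)).congr_deriv ?_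
    simp
  have hlin2 : ∀ x y : ℝ, HasDerivAt
      (fun s : ℝ => (Real.sqrt (1 - s ^ 2) * x + s * y) ^ 2) (2 * (x * y)) 0 := by
    intro x y
    have := (hlin x y).pow 2
    refine this.congr_deriv ?_
    simp
    ring
  have hq : ∀ x y z : ℝ, HasDerivAt
      (fun s : ℝ => Real.sqrt (1 - s ^ 2) ^ 2 * x + 2 * (Real.sqrt (1 - s ^ 2) * s) * y
        + s ^ 2 * z) (2 * y) 0 := by
    intro x y z
    have := (((hc.pow 2).mul_const x).add (((hc.mul hs).const_mul 2).mul_const y)).add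
      ((hs.pow 2).mul_const z)
    refine this.congr_deriv ?_
    simp
  have hJ : HasDerivAt (fun s : ℝ =>
      p.J ((Real.sqrt (1 - s ^ 2) * mt (H 0) + s * mt (H j.succ)) ^ 2 / r))
      (p.J1 (mt (H 0) ^ 2 / r) * (2 * (mt (H 0) * mt (H j.succ)) / r)) 0 := by
    have h1 := (hlin2 (mt (H 0)) (mt (H j.succ))).div_const r
    have h2 : HasDerivAt p.J (p.J1 (mt (H 0) ^ 2 / r)) (mt (H 0) ^ 2 / r) :=
      (hp.cJ (mt (H 0) ^ 2 / r) (by positivity)).d1.self_of_nhds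
    have h3 : HasDerivAt p.J (p.J1 (mt (H 0) ^ 2 / r))
        ((fun s : ℝ => (Real.sqrt (1 - s ^ 2) * mt (H 0) + s * mt (H j.succ)) ^ 2 / r) 0) := by
      simpa using h2
    exact h3.comp (0 : ℝ) h1
  have hd : HasDerivAt φ ((2 * (bil (H 0) P Q * bil (H j.succ) P Q) + p.E / n *
      (2 * ip0 (H 0) (H j.succ))) / r
      - l * (p.J1 (mt (H 0) ^ 2 / r) * (2 * (mt (H 0) * mt (H j.succ)) / r))) 0 := by
    rw [hφ]
    exact (((hlin2 _ _).add ((hq _ _ _).const_mul (p.E / n))).div_const r).sub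
      (hJ.const_mul l)
  have h0 := hmax.hasDerivAt_eq_zero hd
  have h1 : (2 * (bil (H 0) P Q * bil (H j.succ) P Q) + p.E / n *
      (2 * ip0 (H 0) (H j.succ))) / r
      - l * (p.J1 (mt (H 0) ^ 2 / r) * (2 * (mt (H 0) * mt (H j.succ)) / r))
      = 2 / r * ((bil (H 0) P Q * bil (H j.succ) P Q + p.E / n * ip0 (H 0) (H j.succ))
        - l * p.J1 (mt (H 0) ^ 2 / r) * (mt (H 0) * mt (H j.succ))) := by
    ring
  rw [h1] at h0
  have h2 : (2 : ℝ) / r ≠ 0 := by positivity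
  have h3 := (mul_eq_zero.1 h0).resolve_left h2
  linarith

end Helper2.HG
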