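import Pool.Agent.Helper35.HG.StA
import Pool.Agent.Helper62.HC.M_PI2

set_option autoImplicit false

/-!
# Module PB2 of project HG: convexity in the direction of the mean curvature
-/

namespace Helper2.HG

open Helper35.HG Helper35.HC Helper35.HSF Helper35.MS Helper35.PI Helper35.PI2 Helper32.CL
open scoped BigOperators Topology
open Filter

/-- from pairs to differences of diagonal values -/
theorem diff_le {n : ℕ} (X : Fin n → Fin n → ℝ) (hX : SymS X) (μ : ℝ) (hμ : 0 ≤ μ)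
    (h : ∀ c d, OP c d → bil X c d ^ 2 ≤ μ ^ 2) (c d : Fin n → ℝ) (hcd : OP c d) :
    bil X c c - bil X d d ≤ 2 * μ := by
  obtain ⟨h1, h2, h3⟩ := hcd
  obtain ⟨s, hs⟩ : ∃ s : ℝ, s ^ 2 = 1 / 2 :=
    ⟨Real.sqrt (1 / 2), Real.sq_sqrt (by norm_num)⟩
  have hop : OP (fun i => s * (c i + d i)) (fun i => s * (c i - d i)) := by
    refine ⟨?_, ?_, ?_⟩
    · have e : ∀ i, (s * (c i + d i)) ^ 2
          = s ^ 2 * c i ^ 2 + 2 * s ^ 2 * (c i * d i) + s ^ 2 * d i ^ 2 := fun i => by ring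
      simp only [e, Finset.sum_add_distrib, ← Finset.mul_sum, h1, h2, h3, hs]
      norm_num
    · have e : ∀ i, (s * (c i - d i)) ^ 2
          = s ^ 2 * c i ^ 2 + -(2 * s ^ 2) * (c i * d i) + s ^ 2 * d i ^ 2 := fun i => by ring
      simp only [e, Finset.sum_add_distrib, ← Finset.mul_sum, h1, h2, h3, hs]
      norm_num
    · have e : ∀ i, s * (c i + d i) * (s * (c i - d i))
          = s ^ 2 * c i ^ 2 + -(s ^ 2) * d i ^ 2 := fun i => by ring
      simp only [e, Finset.sum_add_distrib, ← Finset.mul_sum, h1, h2, hs]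
      norm_num
  have hb : bil X (fun i => s * (c i + d i)) (fun i => s * (c i - d i))
      = 1 / 2 * (bil X c c - bil X d d) := by
    have hsym : bil X c d = bil X d c := by
      simp only [bil]
      rw [Finset.sum_comm]
      refine Finset.sum_congr rfl fun i _ => Finset.sum_congr rfl fun j _ => ?_
      rw [hX j i]
      ring
    have e : bil X (fun i => s * (c i + d i)) (fun i => s * (c i - d i))
        = s ^ 2 * (bil X c c - bil X c d + bil X d c - bil X d d) := by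
      simp only [bil, ← Finset.sum_add_distrib, ← Finset.sum_sub_distrib, Finset.mul_sum]
      exact Finset.sum_congr rfl fun i _ => Finset.sum_congr rfl fun j _ => by ring
    rw [e, hsym, hs]
    ring
  have h4 := h _ _ hop
  rw [hb] at h4
  have h5 := abs_le_of_sq_le_sq h4 hμ
  linarith [(abs_le.1 h5).2]

theorem hPB2 (hFRM : StFRM) (hSQF : StSQF) : StPB2 := by
  intro n N k hN p hp A r L x₀ hA l hl0 hl1 hR w
  have hn16 := hp.n16
  have hn0 : (0 : ℝ) < n := by
    have : 0 < n := by omega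
    exact_mod_cast this
  have hr := hA.r0
  obtain ⟨-, e, hF, hU, hz, -⟩ := hFRM n N k hN (by omega) A r L x₀ hA
  obtain ⟨H, hH⟩ : ∃ H : Fin (k + 2) → Fin n → Fin n → ℝ, H = fun α => kn A (e α) := ⟨_, rfl⟩
  rw [← hH] at hF
  obtain ⟨h1, h2, h3, h4, -, -⟩ := hSQF n N (k + 2) (by omega) A H r e x₀ hF _ _ rfl rfl
  have hm : ∀ j : Fin (k + 1), mt (H j.succ) = 0 := by
    intro j
    have := h2 j.succ
    rw [hz j] at this
    rcases mul_eq_zero.1 this.symm with h | h
    · exact absurd h hn0.ne'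
    · exact h
  obtain ⟨m0, hm0⟩ : ∃ m0 : ℝ, m0 = mt (H 0) := ⟨_, rfl⟩
  obtain ⟨K, hK⟩ : ∃ K : Fin n → Fin n → ℝ, K = H 0 := ⟨_, rfl⟩
  have hYY : YY A = n ^ 2 * (m0 ^ 2 + r) := by
    rw [h3, Fin.sum_univ_succ, ← hm0]
    simp [hm]
  have hsym : SymS K := by rw [hK]; exact hF.sy 0
  have hmt : mt K = m0 := by rw [hK, hm0]
  -- the inner products
  have hxH : (inner ℝ x₀ (Hv A) : ℝ) = -n := by
    rw [real_inner_comm]
    simp only [Hv, sum_inner, hA.Ax]
    simp
  have hin : ∀ i j, (inner ℝ (A i j) (Hv A) : ℝ) =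
      n * (m0 * K i j + if i = j then r else 0) := by
    intro i j
    have e1 : ∀ α, (inner ℝ (e α) (Hv A) : ℝ) = n * mt (H α) := fun α => by
      rw [real_inner_comm]; exact h2 α
    have e2 : A i j = (∑ α, H α i j • e α) - (if i = j then r else 0) • x₀ := by
      conv_lhs => rw [hF.eq]
    rw [e2]
    simp only [inner_sub_left, sum_inner, inner_smul_left, conj_trivial, e1, hxH]
    rw [Fin.sum_univ_succ]
    simp only [hm, mul_zero, Finset.sum_const_zero, add_zero]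
    rw [← hm0, ← hK]
    ring
  have hbig : (inner ℝ (bilV A w w) (Hv A) : ℝ) =
      n * (m0 * bil K w w + r * ∑ i, w i ^ 2) := by
    simp only [bilV, sum_inner, inner_smul_left, conj_trivial, hin]
    have h1 : ∀ i j : Fin n, w i * w j * (n * (m0 * K i j +
        if i = j then r else 0)) = n * (m0 * (K i j * (w i * w j))) +
          (if i = j then n * (r * w i ^ 2) else 0) := by
      intro i j
      split_ifs with h
      · subst h
        ring
      · ring
    simp only [h1, Finset.sum_add_distrib, ← Finset.mul_sum, Finset.sum_ite_eq, Finset.mem_univ,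
      if_true, bil]
    ring
  -- the bound of the region
  obtain ⟨x, hx⟩ : ∃ x : ℝ, x = m0 ^ 2 / r := ⟨_, rfl⟩
  have hx0 : 0 ≤ x := by rw [hx]; positivity
  have hxr : m0 ^ 2 = x * r := by rw [hx]; field_simp
  have hxY : YY A / (n ^ 2 * r) - 1 = x := by
    rw [hYY, hx]
    field_simp
    ring
  have hV := hp.V0 x x hx0 le_rfl
  have htop := hp.top x x hx0 le_rfl
  have hth0 : 0 ≤ thA2 A := by
    rw [h4]
    exact Finset.sum_nonneg fun α _ => Pool.Agent.Helper62.HC.ip0_nonneg _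
  have hreg : ∀ c d, OP c d → bil K c d ^ 2 ≤ r * (p.J 0 + p.K * x) := by
    intro c d hcd
    have h := hR (e 0) (hU 0) c d hcd
    rw [h1 0, h2 0, hxY, ← hK, hmt] at h
    have h5 : ((n : ℝ) * m0) ^ 2 / (n ^ 2 * r) = x := by
      rw [hx]; field_simp
    rw [h5] at h
    have h6 : 0 ≤ l * (p.e x * (thA2 A / (n * r))) :=
      mul_nonneg hl0.le (mul_nonneg (hp.e0 x hx0) (by positivity))
    have h7 : 0 ≤ p.E / n * ip0 K K :=
      mul_nonneg (div_nonneg hp.E0.le hn0.le) (Pool.Agent.Helper62.HC.ip0_nonneg _)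
    have h8 : l * (p.J x + p.P x) ≤ 1 * (p.J x + p.P x) :=
      mul_le_mul_of_nonneg_right hl1 hV.le
    have h9 : (bil K c d ^ 2 + p.E / n * ip0 K K) / r ≤ p.J 0 + p.K * x := by linarith
    rw [div_le_iff₀ hr] at h9
    linarith
  obtain ⟨μ, hμ⟩ : ∃ μ : ℝ, μ = Real.sqrt (r * (p.J 0 + p.K * x)) := ⟨_, rfl⟩
  have hμ0 : 0 ≤ μ := by rw [hμ]; exact Real.sqrt_nonneg _
  have hμ2 : μ ^ 2 = r * (p.J 0 + p.K * x) := by
    rw [hμ]
    exact Real.sq_sqrt (mul_nonneg hr.le (by linarith))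
  have hdiff := diff_le K hsym μ hμ0 (by rw [hμ2]; exact hreg)
  have hμ3 : 4 * μ ^ 2 ≤ r * (2 + x) := by
    rw [hμ2]
    have h5 : p.K * x ≤ 1 / 4 * x := mul_le_mul_of_nonneg_right hp.K4 hx0
    have h6 := hp.J02
    have h7 : r * (p.J 0 + p.K * x) ≤ r * (1 / 2 + 1 / 4 * x) :=
      mul_le_mul_of_nonneg_left (by linarith) hr.le
    linarith
  -- unit vectors
  have hunit : ∀ w : Fin n → ℝ, ∑ i, w i ^ 2 = 1 →
      1 / (n : ℝ) * (m0 ^ 2 + r) ≤ m0 * bil K w w + r := by
    intro w hw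
    obtain ⟨t, ht⟩ : ∃ t : ℝ, t = m0 - bil K w w := ⟨_, rfl⟩
    have htr : ∑ i, K i i = n * m0 := by
      rw [← hmt, Helper35.HC.mt]; field_simp
    have hm1 := Pool.Agent.Helper62.HC.mean_le K μ hdiff w hw
    have hdiff' : ∀ c d, OP c d → bil (fun i j => -K i j) c c - bil (fun i j => -K i j) d d
        ≤ 2 * μ := by
      intro c d hcd
      have hneg : ∀ v : Fin n → ℝ, bil (fun i j => -K i j) v v = -bil K v v := by
        intro v
        simp only [bil, neg_mul, Finset.sum_neg_distrib]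
      rw [hneg, hneg]
      have hdc : OP d c := ⟨hcd.2.1, hcd.1, by simpa only [mul_comm] using hcd.2.2⟩
      linarith [hdiff d c hdc]
    have hm2 := Pool.Agent.Helper62.HC.mean_le (fun i j => -K i j) μ hdiff' w hw
    have hneg : bil (fun i j => -K i j) w w = -bil K w w := by
      simp only [bil, neg_mul, Finset.sum_neg_distrib]
    have htr2 : ∑ i, (fun i j => -K i j) i i = -(n * m0) := by
      simp only [Finset.sum_neg_distrib, htr]
    rw [htr2, hneg] at hm2
    rw [htr] at hm1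
    have ht2 : (n * t) ^ 2 ≤ (2 * ((n : ℝ) - 1) * μ) ^ 2 := by
      apply sq_le_sq'
      · rw [ht]; nlinarith
      · rw [ht]; nlinarith
    have hkey : (n * (m0 * t)) ^ 2 ≤ (((n : ℝ) - 1) * (m0 ^ 2 + r)) ^ 2 := by
      calc (n * (m0 * t)) ^ 2 = m0 ^ 2 * (n * t) ^ 2 := by ring
        _ ≤ m0 ^ 2 * (2 * ((n : ℝ) - 1) * μ) ^ 2 := mul_le_mul_of_nonneg_left ht2 (sq_nonneg _)
        _ = ((n : ℝ) - 1) ^ 2 * (x * r) * (4 * μ ^ 2) := by rw [← hxr]; ring
        _ ≤ ((n : ℝ) - 1) ^ 2 * (x * r) * (r * (2 + x)) := by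
            apply mul_le_mul_of_nonneg_left hμ3
            positivity
        _ ≤ (((n : ℝ) - 1) * (m0 ^ 2 + r)) ^ 2 := by
            rw [hxr]
            have : 0 ≤ ((n : ℝ) - 1) ^ 2 * r ^ 2 := by positivity
            nlinarith
    have h16 : (16 : ℝ) ≤ n := by exact_mod_cast hn16
    have h5 := abs_le_of_sq_le_sq hkey (mul_nonneg (by linarith) (by positivity))
    have h6 := (abs_le.1 h5).2
    have h7 : m0 * bil K w w = m0 ^ 2 - m0 * t := by rw [ht]; ring
    rw [h7, div_mul_eq_mul_div, one_mul, div_le_iff₀ hn0]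
    nlinarith
  -- the general case
  rw [hbig, hYY]
  have h0 : 0 ≤ ∑ i, w i ^ 2 := Finset.sum_nonneg fun _ _ => sq_nonneg _
  have hmain : 1 / (n : ℝ) * (m0 ^ 2 + r) * (∑ i, w i ^ 2) ≤
      m0 * bil K w w + r * ∑ i, w i ^ 2 := by
    rcases h0.eq_or_lt with h0 | h0
    · have hz : ∀ i, w i = 0 := by
        intro i
        have := (Finset.sum_eq_zero_iff_of_nonneg (fun i _ => sq_nonneg (w i))).1 h0.symm i
          (Finset.mem_univ i)
        exact pow_eq_zero_iff (two_ne_zero) |>.1 this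
      rw [← h0]
      simp [bil, hz]
    · obtain ⟨s, hs0, hs1⟩ : ∃ s : ℝ, 0 < s ∧ s ^ 2 * ∑ i, w i ^ 2 = 1 := by
        refine ⟨(Real.sqrt (∑ i, w i ^ 2))⁻¹, by positivity, ?_⟩
        rw [inv_pow, Real.sq_sqrt h0.le]
        exact inv_mul_cancel₀ h0.ne'
      have h1 := hunit (fun i => s * w i) (by
        simp only [mul_pow, ← Finset.mul_sum]
        exact hs1)
      rw [Pool.Agent.Helper62.HC.bil_self_smul] at h1
      have h2 : s ^ 2 * (1 / (n : ℝ) * (m0 ^ 2 + r) * (∑ i, w i ^ 2)) ≤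
          s ^ 2 * (m0 * bil K w w + r * ∑ i, w i ^ 2) := by
        have h3 : s ^ 2 * (1 / (n : ℝ) * (m0 ^ 2 + r) * (∑ i, w i ^ 2)) =
            1 / (n : ℝ) * (m0 ^ 2 + r) * (s ^ 2 * ∑ i, w i ^ 2) := by ring
        have h4 : s ^ 2 * (m0 * bil K w w + r * ∑ i, w i ^ 2) =
            m0 * (s ^ 2 * bil K w w) + r * (s ^ 2 * ∑ i, w i ^ 2) := by ring
        rw [h3, h4, hs1, mul_one, mul_one]
        exact h1
      exact le_of_mul_le_mul_left h2 (by positivity)
  calc 1 / (n : ℝ) / n * (n ^ 2 * (m0 ^ 2 + r)) * ∑ i, w i ^ 2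
      = n * (1 / (n : ℝ) * (m0 ^ 2 + r) * ∑ i, w i ^ 2) := by field_simp
    _ ≤ _ := mul_le_mul_of_nonneg_left hmain hn0.le

end Helper2.HG
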